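import Pool.Agent.H73.G.R8.TH813.Ell0

set_option autoImplicit false

open Filter
open scoped Topology PeriodPair

noncomputable section

namespace Pool.Agent.TH813.Ell

open H667R3 Pool.Agent.W245.EB

variable (L : PeriodPair)

theorem om_of_two_mul_mem (D : Derivation ℚ ℂ ℂ) {u : ℂ} (hu : 2 * u ∈ L.lattice) :
    om L D u = 0 := by
  have h := wp'_half_eq_zero L hu
  rw [mul_div_cancel_left₀ u (two_ne_zero)] at h
  rw [om, h, div_zero]

theorem om_of_mem (D : Derivation ℚ ℂ ℂ) {l : ℂ} (hl : l ∈ L.lattice) : om L D l = 0 :=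
  om_of_two_mul_mem L D (by rw [two_mul]; exact add_mem hl hl)

theorem om_add_lattice (D : Derivation ℚ ℂ ℂ) (u : ℂ) {l : ℂ} (hl : l ∈ L.lattice) :
    om L D (u + l) = om L D u := by
  rw [om, om, wp_add_lattice L hl, wp'_add_lattice L hl]

theorem et_add_lattice (D : Derivation ℚ ℂ ℂ) (u : ℂ) {l : ℂ} (hl : l ∈ L.lattice) :
    et L D (u + l) = et L D u + D (eta L l) := by
  rw [et, et, zt_add_lattice hl, om_add_lattice L D u hl, wp_add_lattice L hl, map_add]
  ring

theorem om_neg (D : Derivation ℚ ℂ ℂ) (u : ℂ) : om L D (-u) = -om L D u := by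
  rw [om, om, L.weierstrassP_neg, L.derivWeierstrassP_neg, div_neg]

theorem et_neg (D : Derivation ℚ ℂ ℂ) (u : ℂ) : et L D (-u) = -et L D u := by
  rw [et, et, zt_neg, om_neg, L.weierstrassP_neg, map_neg]
  ring

theorem D_nat (D : Derivation ℚ ℂ ℂ) (n : ℕ) : D (n : ℂ) = 0 := D.map_natCast n

theorem D_mul (D : Derivation ℚ ℂ ℂ) (x y : ℂ) : D (x * y) = x * D y + y * D x := by
  rw [Derivation.leibniz, smul_eq_mul, smul_eq_mul]

theorem D_pow (D : Derivation ℚ ℂ ℂ) (x : ℂ) (n : ℕ) : D (x ^ n) = n * x ^ (n - 1) * D x := by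
  rw [Derivation.leibniz_pow, smul_eq_mul, nsmul_eq_mul]
  ring

/-- the derivative of the curve equation -/
theorem D_curve (D : Derivation ℚ ℂ ℂ) {x y g h : ℂ} (hg : D g = 0) (hh : D h = 0)
    (hc : y ^ 2 = 4 * x ^ 3 - g * x - h) : 2 * y * D y = (12 * x ^ 2 - g) * D x := by
  have h1 := congrArg D hc
  rw [D_pow, map_sub, map_sub, D_mul D g x, hg, hh] at h1
  have h2 : D (4 * x ^ 3) = 12 * x ^ 2 * D x := by
    have h4 : D (4 : ℂ) = 0 := by
      have := D_nat D 4
      exact_mod_cast this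
    rw [D_mul, h4, D_pow]
    norm_num
    ring
  rw [h2] at h1
  norm_num at h1
  linear_combination h1

/-- the zeros of the cubic polynomial are simple -/
theorem simple_root {u : ℂ} (hu : u ∉ L.lattice) (hu2 : 2 * u ∈ L.lattice) :
    12 * ℘[L] u ^ 2 - L.g₂ ≠ 0 := by
  -- a second half period
  obtain ⟨v, hv, hv2, hd⟩ : ∃ v : ℂ, v ∉ L.lattice ∧ 2 * v ∈ L.lattice ∧ u - v ∉ L.lattice := by
    by_cases h1 : u - L.ω₁ / 2 ∈ L.lattice
    · refine ⟨L.ω₂ / 2, L.ω₂_div_two_notMem_lattice, ?_, ?_⟩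
      · rw [mul_div_cancel₀ _ (two_ne_zero)]
        exact L.ω₂_mem_lattice
      · intro h2
        apply half_add_half_notMem L
        have h3 := sub_mem h2 h1
        have h4 := add_mem h3 L.ω₂_mem_lattice
        have e : u - L.ω₂ / 2 - (u - L.ω₁ / 2) + L.ω₂ = L.ω₁ / 2 + L.ω₂ / 2 := by ring
        rwa [e] at h4
    · refine ⟨L.ω₁ / 2, L.ω₁_div_two_notMem_lattice, ?_, h1⟩
      rw [mul_div_cancel₀ _ (two_ne_zero)]
      exact L.ω₁_mem_lattice
  have hs : u + v ∉ L.lattice := by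
    intro h
    apply hd
    have := sub_mem h hv2
    rwa [show u + v - 2 * v = u - v by ring] at this
  -- values at the three half periods
  have hp : ∀ z : ℂ, z ∉ L.lattice → 2 * z ∈ L.lattice →
      4 * ℘[L] z ^ 3 - L.g₂ * ℘[L] z - L.g₃ = 0 := by
    intro z hz hz2
    have h := wp'_half_eq_zero L hz2
    rw [mul_div_cancel_left₀ z (two_ne_zero)] at h
    rw [← L.derivWeierstrassP_sq z hz, h]
    ring
  have hs2 : 2 * (u + v) ∈ L.lattice := by
    rw [mul_add]
    exact add_mem hu2 hv2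
  have e1 := hp u hu hu2
  have e2 := hp v hv hv2
  have e3 := hp (u + v) hs hs2
  have d12 : ℘[L] u - ℘[L] v ≠ 0 := by
    rw [sub_ne_zero, Ne, wp_eq_iff L hu hv]
    tauto
  have d13 : ℘[L] u - ℘[L] (u + v) ≠ 0 := by
    rw [sub_ne_zero, Ne, wp_eq_iff L hu hs]
    rintro (h | h)
    · apply hv
      have := sub_mem h hu2
      rwa [show u + (u + v) - 2 * u = v by ring] at this
    · apply hv
      have := neg_mem h
      rwa [show -(u - (u + v)) = v by ring] at this
  have d23 : ℘[L] v - ℘[L] (u + v) ≠ 0 := by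
    rw [sub_ne_zero, Ne, wp_eq_iff L hv hs]
    rintro (h | h)
    · apply hu
      have := sub_mem h hv2
      rwa [show v + (u + v) - 2 * v = u by ring] at this
    · apply hu
      have := neg_mem h
      rwa [show -(v - (u + v)) = u by ring] at this
  generalize ℘[L] u = a at *
  generalize ℘[L] v = b at *
  generalize ℘[L] (u + v) = c at *
  have f1 : 4 * (a ^ 2 + a * b + b ^ 2) - L.g₂ = 0 := by
    apply mul_left_cancel₀ d12
    linear_combination e1 - e2
  have f2 : 4 * (a ^ 2 + a * c + c ^ 2) - L.g₂ = 0 := by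
    apply mul_left_cancel₀ d13
    linear_combination e1 - e3
  have f3 : a + b + c = 0 := by
    apply mul_left_cancel₀ d23
    linear_combination (f1 - f2) / 4
  have f4 : 12 * a ^ 2 - L.g₂ = 4 * (a - b) * (a - c) := by
    linear_combination f1 + 4 * (a - b) * f3
  rw [f4]
  exact mul_ne_zero (mul_ne_zero (by norm_num) d12) d13

/-- the fundamental relations, valid outside the lattice -/
theorem D_wp (D : Derivation ℚ ℂ ℂ) (h2 : D L.g₂ = 0) (h3 : D L.g₃ = 0) {u : ℂ}
    (hu : u ∉ L.lattice) : D (℘[L] u) = om L D u * ℘'[L] u ∧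
      D (℘'[L] u) = om L D u * (6 * ℘[L] u ^ 2 - L.g₂ / 2) := by
  have hc := D_curve D h2 h3 (L.derivWeierstrassP_sq u hu)
  by_cases hu2 : 2 * u ∈ L.lattice
  · have h := wp'_half_eq_zero L hu2
    rw [mul_div_cancel_left₀ u (two_ne_zero)] at h
    rw [om_of_two_mul_mem L D hu2, zero_mul, zero_mul, h, map_zero]
    refine ⟨?_, rfl⟩
    rw [h, mul_zero, zero_mul] at hc
    exact (mul_eq_zero.1 hc.symm).resolve_left (simple_root L hu hu2)
  · have hy := wp'_ne_zero L hu2
    have h1 : D (℘[L] u) = om L D u * ℘'[L] u := by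
      rw [om, div_mul_cancel₀ _ hy]
    refine ⟨h1, ?_⟩
    rw [h1] at hc
    apply mul_left_cancel₀ hy
    linear_combination hc / 2

/-- `om` detects the derivations which kill the point -/
theorem om_eq_zero_iff (D : Derivation ℚ ℂ ℂ) (h2 : D L.g₂ = 0) (h3 : D L.g₃ = 0) {u : ℂ}
    (hu : u ∉ L.lattice) : om L D u = 0 ↔ D (℘[L] u) = 0 ∧ D (℘'[L] u) = 0 := by
  constructor
  · intro h
    obtain ⟨h4, h5⟩ := D_wp L D h2 h3 hu
    rw [h4, h5, h, zero_mul, zero_mul]
    exact ⟨rfl, rfl⟩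
  · rintro ⟨h, -⟩
    rw [om, h, zero_div]

end Pool.Agent.TH813.Ell
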