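import Pool.Agent.H73.G.R8.TH494.Ell.Add1

set_option autoImplicit false

open Filter
open scoped Topology PeriodPair

noncomputable section

namespace Pool.Agent.TH813.Ell

open H667R3 Pool.Agent.W245.EB

variable (L : PeriodPair)

theorem alg_key {x1 x2 y1 y2 g2 g3 lam : ℂ} (hΔ : x1 - x2 ≠ 0)
    (hl : 2 * lam * (x1 - x2) = y1 - y2) (c1 : y1 ^ 2 = 4 * x1 ^ 3 - g2 * x1 - g3)
    (c2 : y2 ^ 2 = 4 * x2 ^ 3 - g2 * x2 - g3) :
    2 * lam * (y1 + y2) = 4 * (x1 ^ 2 + x1 * x2 + x2 ^ 2) - g2 := by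
  apply mul_left_cancel₀ hΔ
  linear_combination (y1 + y2) * hl + c1 - c2

/-- the sum in terms of the slope -/
theorem alg_x {x1 x2 y1 y2 x3 g2 g3 lam : ℂ} (hΔ : x1 - x2 ≠ 0)
    (hl : 2 * lam * (x1 - x2) = y1 - y2) (c1 : y1 ^ 2 = 4 * x1 ^ 3 - g2 * x1 - g3)
    (c2 : y2 ^ 2 = 4 * x2 ^ 3 - g2 * x2 - g3)
    (h3 : x3 = x2 - ((6 * x2 ^ 2 - g2 / 2) * (x2 - x1) - (y2 - y1) * y2) / (2 * (x2 - x1) ^ 2)) :
    x3 = lam ^ 2 - x1 - x2 := by
  have hk := alg_key hΔ hl c1 c2
  have hΔ' : x2 - x1 ≠ 0 := by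
    rw [← neg_sub]
    exact neg_ne_zero.2 hΔ
  have h4 : ((6 * x2 ^ 2 - g2 / 2) * (x2 - x1) - (y2 - y1) * y2) / (2 * (x2 - x1) ^ 2)
      = 2 * x2 + x1 - lam ^ 2 := by
    rw [div_eq_iff (mul_ne_zero two_ne_zero (pow_ne_zero 2 hΔ'))]
    have e1 : y2 = y1 - 2 * lam * (x1 - x2) := by linear_combination hl
    subst e1
    linear_combination ((x1 - x2) / 2) * hk
  rw [h3, h4]
  ring

theorem alg_y {x1 x2 y1 y2 x3 y3 g2 g3 lam : ℂ} (hΔ : x1 - x2 ≠ 0)
    (hl : 2 * lam * (x1 - x2) = y1 - y2) (c1 : y1 ^ 2 = 4 * x1 ^ 3 - g2 * x1 - g3)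
    (c2 : y2 ^ 2 = 4 * x2 ^ 3 - g2 * x2 - g3) (hx : x3 = lam ^ 2 - x1 - x2)
    (h3 : y3 = y2 - (((12 * x2 * y2) * (x2 - x1) + (6 * x2 ^ 2 - g2 / 2) * y2
      - ((6 * x2 ^ 2 - g2 / 2) * y2 + (y2 - y1) * (6 * x2 ^ 2 - g2 / 2))) * (2 * (x2 - x1) ^ 2)
      - ((6 * x2 ^ 2 - g2 / 2) * (x2 - x1) - (y2 - y1) * y2) * (2 * (2 * (x2 - x1) * y2)))
      / (2 * (x2 - x1) ^ 2) ^ 2) :
    y3 = 2 * lam * (x1 - x3) - y1 := by
  have hk := alg_key hΔ hl c1 c2
  have hΔ' : x2 - x1 ≠ 0 := by
    rw [← neg_sub]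
    exact neg_ne_zero.2 hΔ
  rw [h3, hx]
  rw [sub_eq_iff_eq_add, ← sub_eq_iff_eq_add', eq_div_iff
    (pow_ne_zero 2 (mul_ne_zero two_ne_zero (pow_ne_zero 2 hΔ')))]
  have e1 : y2 = y1 - 2 * lam * (x1 - x2) := by linear_combination hl
  subst e1
  have e2 : g2 = 4 * (x1 ^ 2 + x1 * x2 + x2 ^ 2) - 2 * lam * (y1 + (y1 - 2 * lam * (x1 - x2))) := by
    linear_combination hk
  subst e2
  ring

theorem alg_D (D : Derivation ℚ ℂ ℂ) {x1 x2 y1 y2 x3 y3 g2 g3 lam f g : ℂ} (hΔ : x1 - x2 ≠ 0)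
    (hl : 2 * lam * (x1 - x2) = y1 - y2) (c1 : y1 ^ 2 = 4 * x1 ^ 3 - g2 * x1 - g3)
    (c2 : y2 ^ 2 = 4 * x2 ^ 3 - g2 * x2 - g3) (hx : x3 = lam ^ 2 - x1 - x2)
    (hy : y3 = 2 * lam * (x1 - x3) - y1) (d1 : D x1 = f * y1)
    (d2 : D y1 = f * (6 * x1 ^ 2 - g2 / 2)) (d3 : D x2 = g * y2)
    (d4 : D y2 = g * (6 * x2 ^ 2 - g2 / 2)) :
    D lam = f * (x1 - x3) + g * (x2 - x3) ∧ D x3 = (f + g) * y3 := by
  have hk := alg_key hΔ hl c1 c2
  have e1 : y2 = y1 - 2 * lam * (x1 - x2) := by linear_combination hl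
  have h1 : D lam = f * (x1 - x3) + g * (x2 - x3) := by
    have h2 := congrArg D hl
    have hD2 : D (2 : ℂ) = 0 := by exact_mod_cast D_nat D 2
    rw [D_mul, D_mul, map_sub, map_sub, hD2, d1, d2, d3, d4] at h2
    apply mul_left_cancel₀ hΔ
    rw [hx]
    have e2 : g2 = 4 * (x1 ^ 2 + x1 * x2 + x2 ^ 2)
        - 2 * lam * (y1 + (y1 - 2 * lam * (x1 - x2))) := by
      rw [e1] at hk
      linear_combination hk
    rw [e1, e2] at h2
    linear_combination h2 / 2
  refine ⟨h1, ?_⟩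
  have h3 : D x3 = 2 * lam * D lam - D x1 - D x2 := by
    rw [hx, map_sub, map_sub, D_pow]
    norm_num
  rw [h3, h1, d1, d3, hy, e1]
  ring

section generic

variable (D : Derivation ℚ ℂ ℂ) (h2 : D L.g₂ = 0) (h3 : D L.g₃ = 0)

include h2 h3 in
/-- the relations at the sum of two points, generic case -/
theorem generic {u v : ℂ} (hu : u ∉ L.lattice) (hv : 2 * v ∉ L.lattice)
    (hs : u + v ∉ L.lattice) (hd : u - v ∉ L.lattice) :
    ∃ lam : ℂ, zeta L (u + v) = zeta L u + zeta L v + lam ∧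
      D lam = om L D u * (℘[L] u - ℘[L] (u + v)) + om L D v * (℘[L] v - ℘[L] (u + v)) ∧
      D (℘[L] (u + v)) = (om L D u + om L D v) * ℘'[L] (u + v) := by
  have hv' := two_mul_notMem_of L hv
  have hd' : v - u ∉ L.lattice := fun h => hd (by simpa using neg_mem h)
  have hs' : v + u ∉ L.lattice := by rwa [add_comm]
  have hΔ : ℘[L] u - ℘[L] v ≠ 0 := by
    rw [sub_ne_zero, Ne, wp_eq_iff L hu hv']
    tauto
  have c1 := L.derivWeierstrassP_sq u hu
  have c2 := L.derivWeierstrassP_sq v hv'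
  have hx0 := wp_add L hv hu hs' hd'
  have hy0 := wp'_add L hv hu hs' hd'
  have hl : 2 * ((℘'[L] u - ℘'[L] v) / (2 * (℘[L] u - ℘[L] v))) * (℘[L] u - ℘[L] v)
      = ℘'[L] u - ℘'[L] v := by
    field_simp
  obtain ⟨d1, d2⟩ := D_wp L D h2 h3 hu
  obtain ⟨d3, d4⟩ := D_wp L D h2 h3 hv'
  rw [add_comm v u] at hx0 hy0
  have hx := alg_x hΔ hl c1 c2 hx0
  have hy := alg_y hΔ hl c1 c2 hx hy0
  obtain ⟨e1, e2⟩ := alg_D D hΔ hl c1 c2 hx hy d1 d2 d3 d4
  exact ⟨_, zeta_add L hu hv' hs hd, e1, e2⟩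

/-- a generic auxiliary point -/
theorem exists_generic (S : Finset ℂ) : ∃ w : ℂ, ∀ c ∈ S, 2 * w + c ∉ L.lattice := by
  have hc : ∀ c : ℂ, {w : ℂ | 2 * w + c ∈ L.lattice}.Countable := by
    intro c
    have : Countable L.lattice := L.latticeEquivProd.toEquiv.injective.countable
    have h1 : (Set.range fun l : L.lattice => ((l : ℂ) - c) / 2).Countable :=
      Set.countable_range _
    refine h1.mono ?_
    intro w hw
    refine ⟨⟨2 * w + c, hw⟩, ?_⟩
    simp
  have h1 : (⋃ c ∈ S, {w : ℂ | 2 * w + c ∈ L.lattice}).Countable :=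
    S.countable_toSet.biUnion fun c _ => hc c
  obtain ⟨w, hw⟩ := (h1.dense_compl ℝ).nonempty
  refine ⟨w, fun c hcS hmem => hw ?_⟩
  exact Set.mem_biUnion hcS hmem

theorem two_mem {z : ℂ} (hz : z ∈ L.lattice) : 2 * z ∈ L.lattice := by
  rw [two_mul]; exact add_mem hz hz

include h2 h3 in
theorem om_add_gen {u v : ℂ} (hu : u ∉ L.lattice) (hv : 2 * v ∉ L.lattice)
    (hs : 2 * (u + v) ∉ L.lattice) (hd : u - v ∉ L.lattice) :
    om L D (u + v) = om L D u + om L D v := by
  obtain ⟨_, _, _, h⟩ := generic L D h2 h3 hu hv (two_mul_notMem_of L hs) hd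
  rw [om, h, mul_div_assoc, div_self (wp'_ne_zero L hs), mul_one]

include h2 h3 in
/-- addition of a generic point -/
theorem om_add_gen' {u v : ℂ} (hv : 2 * v ∉ L.lattice)
    (hs : 2 * (u + v) ∉ L.lattice) (hd : u - v ∉ L.lattice) :
    om L D (u + v) = om L D u + om L D v := by
  by_cases hu : u ∈ L.lattice
  · rw [add_comm u v, om_add_lattice L D v hu, om_of_mem L D hu, zero_add]
  · exact om_add_gen L D h2 h3 hu hv hs hd

include h2 h3 in
theorem om_add_nh {u v : ℂ} (hs : 2 * (u + v) ∉ L.lattice) :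
    om L D (u + v) = om L D u + om L D v := by
  obtain ⟨w, hw⟩ := exists_generic L {0, 2 * u, -(2 * u), 2 * v, -(2 * v), u - v}
  have w0 := hw 0 (by simp)
  have w1 := hw (2 * u) (by simp)
  have w2 := hw (-(2 * u)) (by simp)
  have w3 := hw (2 * v) (by simp)
  have w4 := hw (-(2 * v)) (by simp)
  have w5 := hw (u - v) (by simp)
  rw [add_zero] at w0
  have a1 : om L D (u + w) = om L D u + om L D w := by
    refine om_add_gen' L D h2 h3 w0 ?_ ?_
    · rwa [show 2 * (u + w) = 2 * w + 2 * u by ring]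
    · intro h
      apply w2
      have := neg_mem (two_mem L h)
      rwa [show -(2 * (u - w)) = 2 * w + -(2 * u) by ring] at this
  have a2 : om L D (v + -w) = om L D v + om L D (-w) := by
    refine om_add_gen' L D h2 h3 ?_ ?_ ?_
    · intro h
      apply w0
      have := neg_mem h
      rwa [show -(2 * -w) = 2 * w by ring] at this
    · intro h
      apply w4
      have := neg_mem h
      rwa [show -(2 * (v + -w)) = 2 * w + -(2 * v) by ring] at this
    · intro h
      apply w3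
      have := two_mem L h
      rwa [show 2 * (v - -w) = 2 * w + 2 * v by ring] at this
  have a3 : om L D ((u + w) + (v + -w)) = om L D (u + w) + om L D (v + -w) := by
    refine om_add_gen' L D h2 h3 ?_ ?_ ?_
    · intro h
      apply w4
      have := neg_mem h
      rwa [show -(2 * (v + -w)) = 2 * w + -(2 * v) by ring] at this
    · rwa [show 2 * (u + w + (v + -w)) = 2 * (u + v) by ring]
    · rwa [show u + w - (v + -w) = 2 * w + (u - v) by ring]
  rw [show u + w + (v + -w) = u + v by ring] at a3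
  rw [a3, a1, a2, om_neg]
  ring

include h2 h3 in
theorem om_add (u v : ℂ) : om L D (u + v) = om L D u + om L D v := by
  by_cases hs : 2 * (u + v) ∈ L.lattice
  · by_cases hu : 2 * u ∈ L.lattice
    · have hv : 2 * v ∈ L.lattice := by
        have := sub_mem hs hu
        rwa [show 2 * (u + v) - 2 * u = 2 * v by ring] at this
      rw [om_of_two_mul_mem L D hs, om_of_two_mul_mem L D hu, om_of_two_mul_mem L D hv, add_zero]
    · have h := om_add_nh L D h2 h3 (u := u + v) (v := -v)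
        (by rwa [show u + v + -v = u by ring])
      rw [show u + v + -v = u by ring, om_neg] at h
      rw [h]
      ring
  · exact om_add_nh L D h2 h3 hs

include h2 h3 in
theorem et_add_gen {u v : ℂ} (hv : 2 * v ∉ L.lattice)
    (hs : u + v ∉ L.lattice) (hd : u - v ∉ L.lattice) :
    et L D (u + v) = et L D u + et L D v := by
  have hv' := two_mul_notMem_of L hv
  by_cases hu : u ∈ L.lattice
  · have e : et L D u = D (eta L u) := by
      rw [et, zt_of_mem hu, om_of_mem L D hu, mul_zero, add_zero]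
    rw [add_comm u v, et_add_lattice L D v hu, e, add_comm]
  · obtain ⟨lam, e1, e2, _⟩ := generic L D h2 h3 hu hv hs hd
    rw [et, et, et, zt_of_notMem hu, zt_of_notMem hv', zt_of_notMem hs, e1, map_add, map_add, e2,
      om_add L D h2 h3]
    ring

include h2 h3 in
theorem et_add (u v : ℂ) : et L D (u + v) = et L D u + et L D v := by
  by_cases hs : u + v ∈ L.lattice
  · have e : et L D (u + v) = D (eta L (u + v)) := by
      rw [et, zt_of_mem hs, om_of_mem L D hs, mul_zero, add_zero]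
    have h := et_add_lattice L D (-u) hs
    rw [show -u + (u + v) = v by ring, et_neg] at h
    rw [e, h]
    ring
  · obtain ⟨w, hw⟩ := exists_generic L {0, 2 * u, -(2 * u), 2 * v, -(2 * v), u - v}
    have w0 := hw 0 (by simp)
    have w1 := hw (2 * u) (by simp)
    have w2 := hw (-(2 * u)) (by simp)
    have w3 := hw (2 * v) (by simp)
    have w4 := hw (-(2 * v)) (by simp)
    have w5 := hw (u - v) (by simp)
    rw [add_zero] at w0
    have a1 : et L D (u + w) = et L D u + et L D w := by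
      refine et_add_gen L D h2 h3 w0 ?_ ?_
      · intro h
        apply w1
        have := two_mem L h
        rwa [show 2 * (u + w) = 2 * w + 2 * u by ring] at this
      · intro h
        apply w2
        have := neg_mem (two_mem L h)
        rwa [show -(2 * (u - w)) = 2 * w + -(2 * u) by ring] at this
    have a2 : et L D (v + -w) = et L D v + et L D (-w) := by
      refine et_add_gen L D h2 h3 ?_ ?_ ?_
      · intro h
        apply w0
        have := neg_mem h
        rwa [show -(2 * -w) = 2 * w by ring] at this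
      · intro h
        apply w4
        have := neg_mem (two_mem L h)
        rwa [show -(2 * (v + -w)) = 2 * w + -(2 * v) by ring] at this
      · intro h
        apply w3
        have := two_mem L h
        rwa [show 2 * (v - -w) = 2 * w + 2 * v by ring] at this
    have a3 : et L D ((u + w) + (v + -w)) = et L D (u + w) + et L D (v + -w) := by
      refine et_add_gen L D h2 h3 ?_ ?_ ?_
      · intro h
        apply w4
        have := neg_mem h
        rwa [show -(2 * (v + -w)) = 2 * w + -(2 * v) by ring] at this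
      · rwa [show u + w + (v + -w) = u + v by ring]
      · rwa [show u + w - (v + -w) = 2 * w + (u - v) by ring]
    rw [show u + w + (v + -w) = u + v by ring] at a3
    rw [a3, a1, a2, et_neg]
    ring

end generic

end Pool.Agent.TH813.Ell
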